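import Pool.Agent.H91.SignDim

set_option autoImplicit false

open H91.SignDim in
theorem Pool.Agent.Results.MP_b48a23_an.Fails.result :
    ∃ a : ℕ → ℝ × ℝ, Filter.Tendsto a Filter.atTop (nhds 0) ∧
    (∀ L, (H91.SignDim.E a L).Nonempty) ∧ ∀ m : MetricSpace (ℕ → ℤˣ),
      (∀ x y, x ≠ y → m.dist x y = (1 / 2) ^ (PiNat.firstDiff x y + 1)) →
      ∀ L, @dimH _ m.toEMetricSpace (H91.SignDim.E a L) = 0 :=
  main
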